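import Pool.Agent.helper616_TN.Main1

/-!
# Chowla's conjecture along the values of almost every real polynomial

Let `9 k < 2 m + 6`. For almost every real polynomial `f` of degree `m` with positive leading coefficient the products
`λ(⌊f(n)⌋) λ(⌊f(n + 1)⌋) ⋯ λ(⌊f(n + k - 1)⌋)`, and more generally all products `∏ b_i(⌊f(n + h_i)⌋)` in which one of
the `b_i` is the Liouville function and the others are arbitrary functions bounded by a power of the logarithm, have
mean value zero, with any power of the logarithm saved and uniformly for distinct shifts up to a power of `log N`.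

Proof: the second moment over the coefficients of `f`. For `n` and `n'` which are not too close the coefficients can be
moved in a direction in which only one of the values `f(n + h_i)`, `f(n' + h_i)` changes (Lagrange interpolation), and
the variance of the Liouville function in intervals of length `x ^ (1 / 3 + ε)` is used for this one.
-/

set_option autoImplicit false

open Filter Topology MeasureTheory

namespace Pool.Agent.Results.MP_a14ce1_nt.AlmostAllPolynomials

/-- The Liouville function. -/
noncomputable def liouville (n : ℕ) : ℝ := (-1) ^ (ArithmeticFunction.cardFactors n)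

/-- The value at `x` of the polynomial with the coefficients `a 0, …, a m`. -/
noncomputable def value {m : ℕ} (a : Fin (m + 1) → ℝ) (x : ℕ) : ℝ := ∑ k, a k * (x : ℝ) ^ (k : ℕ)

/-- Let `9 k < 2 m + 6`, let `b 0, …, b (k - 1)` be functions bounded by a power of the logarithm, one of which is the
Liouville function. For almost all polynomials `f` of degree `m` with positive leading coefficient, for all `E` and
`A`, `∑_{n < N} ∏_i b_i(⌊f(n + h_i)⌋) = O(N / (log N) ^ A)` uniformly for distinct `h_i ≤ (log N) ^ E`. -/
theorem result (m k : ℕ) (hk : 9 * k < 2 * m + 6) (b : Fin k → ℕ → ℝ)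
    (hb : ∀ i, ∃ (C : ℝ) (K : ℕ), ∀ n : ℕ, |b i n| ≤ C * (Real.log (n + 2)) ^ K)
    (i₀ : Fin k) (hi₀ : b i₀ = liouville) :
    ∀ᵐ a : Fin (m + 1) → ℝ, 0 < a (Fin.last m) → ∀ E A : ℕ, ∃ C : ℝ, ∀ N : ℕ, 2 ≤ N →
      ∀ h : Fin k → ℕ, Function.Injective h → (∀ i, (h i : ℝ) ≤ (Real.log N) ^ E) →
        |∑ n ∈ Finset.range N, ∏ i, b i ⌊value a (n + h i)⌋₊| ≤ C * N / (Real.log N) ^ A := by
  have hv : Pool.Agent.helper616_TN.Var13 (b i₀) := by
    rw [hi₀]
    exact Pool.Agent.helper616_TN.var_lam
  filter_upwards [Pool.Agent.helper616_TN.zero m k hk b hb i₀ hv] with a ha h0 E A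
  obtain ⟨C, hC⟩ := ha h0 E A
  exact ⟨C, fun N hN h h1 h2 => hC N hN h ⟨h1, h2⟩⟩

end Pool.Agent.Results.MP_a14ce1_nt.AlmostAllPolynomials
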