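import Mathlib
import Pool.Agent.TP975.LR.Lj2

/-!
Gaussian moments of the sums of `λ(f(n + j₁)) ⋯ λ(f(n + jₖ))` over short windows (more generally over the sets of a family), for
almost all polynomials `f`.
-/

set_option autoImplicit false

namespace Pool.Agent.Results.MP_a14ce1_nt.GaussianMomentsOfProducts

open Finset

/-- the Liouville function on the integers, `lam (-m) = lam m`, `lam 0 = 0` -/
noncomputable def lam (m : ℤ) : ℝ := if m = 0 then 0 else (-1) ^ ArithmeticFunction.cardFactors m.natAbs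

/-- the value at `t` of the polynomial with the coefficients `a 0, ..., a d` -/
def value {d : ℕ} (a : Fin (d + 1) → ℤ) (t : ℤ) : ℤ := ∑ c, a c * t ^ (c : ℕ)

/-- the polynomials of degree at most `d` with coefficients in `[-H, H]` -/
noncomputable def box (d H : ℕ) : Finset (Fin (d + 1) → ℤ) := Fintype.piFinset fun _ => Icc (-(H : ℤ)) H

/-- the sum over `n` in `T` of the product of `lam (f (n + j))` over `j` in `J` -/
noncomputable def S {d : ℕ} (f : Fin (d + 1) → ℤ) (J T : Finset ℤ) : ℝ := ∑ n ∈ T, ∏ j ∈ J, lam (value f (n + j))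

/-- the `r`-th moment of the standard normal law: `1 * 3 * ... * (r - 1)` for even `r`, `0` for odd `r` -/
noncomputable def gaussMoment (r : ℕ) : ℝ := if Even r then (Nat.doubleFactorial (r - 1) : ℝ) else 0

open Classical in
/-- Let `k ≥ 2` and `r k ≤ d`. For all large `H`, every set `J` of `k` integers bounded by `log ^ A H` and every family of `m`
sets `T i` of `h ≥ log ^ ε H` integers, bounded by `log ^ A H`, of which at most `m ^ 2 / log ^ ε H` pairs intersect, for almost
all polynomials `f` of degree at most `d` the mean over `i` of `(S f J (T i) / √h) ^ r` differs by at most `1 / log ^ η H` from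
the `r`-th moment of the standard normal law. -/
theorem result (d A r k : ℕ) (hk : 2 ≤ k) (hr : r * k ≤ d) (ε : ℝ) (hε : 0 < ε) :
    ∃ η : ℝ, 0 < η ∧ ∃ H₀ : ℕ, ∀ H : ℕ, H₀ ≤ H → ∀ J : Finset ℤ, J.card = k → (∀ j ∈ J, |(j : ℝ)| ≤ Real.log H ^ A) →
    ∀ m h : ℕ, 1 ≤ m → Real.log H ^ ε ≤ h →
    ∀ T : Fin m → Finset ℤ, (∀ i, (T i).card = h) → (∀ i, ∀ t ∈ T i, |(t : ℝ)| ≤ Real.log H ^ A) →
    (((univ : Finset (Fin m × Fin m)).filter (fun p => ¬ Disjoint (T p.1) (T p.2))).card : ℝ) ≤
      (m : ℝ) ^ 2 / Real.log H ^ ε →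
    (((box d H).filter (fun f =>
      1 / Real.log H ^ η < |(∑ i, (S f J (T i) / Real.sqrt h) ^ r) / m - gaussMoment r|)).card : ℝ) ≤
      (box d H).card / Real.log H ^ η := by
  obtain ⟨η, hη, H0, h0⟩ := Pool.Agent.TP975.LR.emp_J Pool.Agent.TP975.LR.lamI Pool.Agent.TP975.LR.winB_lamI
    (fun v hv => by
      unfold Pool.Agent.TP975.LR.lamI
      rw [if_neg hv]
      exact neg_one_pow_eq_or ℝ _) (by
      unfold Pool.Agent.TP975.LR.lamI
      rw [if_pos rfl]) d A r k (by omega) hr ε hε
  exact ⟨η, hη, H0, fun H hH J hJc hJ m h hm hh T hTc hT hN => h0 H hH J hJc hJ m h hm hh T hTc hT hN⟩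

end Pool.Agent.Results.MP_a14ce1_nt.GaussianMomentsOfProducts
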