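import Pool.Agent.Helper896.LL.Fin

/-!
# Products of `k` consecutive values of the Liouville function, for almost all long lengths `k ≤ N`

From the starting files: the two point theorem at almost all scales with periodic weights (`Pool.Agent.Y958.TC`),
the averaging over the scales (`Pool.Agent.Y304.U`), the exponential sums over the Liouville function
(`Pool.Agent.H373R2`). The pair correlations with arbitrary frequencies are treated in `Pool.Agent.Helper896.TW`.
From Mathlib: `ArithmeticFunction.cardFactors n`: the number of the prime factors of `n` with multiplicity.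
-/

set_option autoImplicit false

namespace Pool.Agent.Results.MP_a14ce1_nt.LongLengths

open Finset Filter Topology

/-- The product `λ(a n + b) λ(a (n + 1) + b) ... λ(a (n + k - 1) + b)` of the values of the Liouville function at
`k` consecutive terms of a progression. For `a = 1` and `b = 0` it is `λ(n) λ(n + 1) ... λ(n + k - 1)`. -/
noncomputable def prodL (a b k n : ℕ) : ℝ := ∏ j ∈ range k, (-1 : ℝ) ^ ArithmeticFunction.cardFactors (a * (n + j) + b)

/-- The sum of the products over the interval `Y < n ≤ X`. For `a = 1`, `b = 0`, `Y = 0` it is `S_k(X)`. -/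
noncomputable def sumL (a b k Y X : ℕ) : ℝ := ∑ n ∈ Ioc Y X, prodL a b k n

open Classical in
/-- There is a set `𝓔` of positive integers of logarithmic density zero (the exceptional scales) such that for every
progression `a n + b` with `a ≥ 1` and every `ε > 0`, for all sufficiently large `N` outside `𝓔`, all the lengths
`k ≤ N` with at most `ε N` exceptions satisfy

`| ∑_{Y < n ≤ X} λ(a n + b) ... λ(a (n + k - 1) + b) | ≤ (X - Y) / 3 + ε N` for all `0 ≤ Y ≤ X ≤ N`. -/
theorem result : ∃ 𝓔 : Set ℕ,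
    Tendsto (fun X : ℕ => (∑ N ∈ Icc 1 X, if N ∈ 𝓔 then (1 : ℝ) / N else 0) / Real.log X) atTop (𝓝 0) ∧
    ∀ a b : ℕ, 1 ≤ a → ∀ ε : ℝ, 0 < ε → ∃ N₀ : ℕ, ∀ N : ℕ, N₀ ≤ N → N ∉ 𝓔 →
      ∃ T : Finset ℕ, (T.card : ℝ) ≤ ε * N ∧ ∀ k ∈ Icc 1 N, k ∉ T →
        ∀ Y X : ℕ, Y ≤ X → X ≤ N → |sumL a b k Y X| ≤ ((X : ℝ) - Y) / 3 + ε * N := by
  obtain ⟨E, h1, h2⟩ := Pool.Agent.Helper896.LL.long_lengths
  refine ⟨E, h1, fun a b ha ε hε => ?_⟩
  obtain ⟨N₀, hN₀⟩ := h2 a b ha ε hε
  refine ⟨N₀, fun N hN hNE => ?_⟩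
  obtain ⟨T, _, hT1, hT2⟩ := hN₀ N hN hNE
  refine ⟨T, hT1, fun k hk hkT Y X hYX hXN => ?_⟩
  have h3 := hT2 k hk hkT Y X hYX hXN
  refine le_trans (le_of_eq ?_) h3
  congr 1
  unfold sumL prodL Pool.Agent.Helper896.LL.SS
  apply sum_congr rfl
  intro n _
  apply prod_congr rfl
  intro j _
  unfold Pool.Agent.Helper896.MA.lm
  push_cast
  rfl

end Pool.Agent.Results.MP_a14ce1_nt.LongLengths
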