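import Pool.Agent.H629Chowla.Suff

/-!
# Chowla's conjecture after random sign changes of the Liouville function

The value of Liouville's function at every prime `p` is changed from `-1` to `1` with some
probability `ε p`, independently for all `p`. If the series `∑ min (ε p) (1 - ε p) / p` diverges
in the windows `(log₂ N) ^ 2 < p ≤ N ^ (1 / 4)`, in particular if `ε p ≥ δ p` and
`1 - ε p ≥ δ p` for a nonincreasing function with `δ N * log log N → ∞` (for example if
`ε p` is any constant in `(0, 1)`, or `ε p = 1 / log log log p`), then almost surely the resulting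
completely multiplicative function satisfies Chowla's conjecture, for all orders and all shifts.
-/

open Finset Filter Topology MeasureTheory ProbabilityTheory

namespace Pool.Agent.Results.MP_a14ce1_nt.RandomSignChanges

open Classical in
/-- The completely multiplicative function with the value `1` at the primes of `Q` and the value
`-1` at all the other primes (Liouville's function if `Q` is empty). -/
noncomputable def lam (Q : Set ℕ) (n : ℕ) : ℝ :=
  (n.primeFactorsList.map (fun p => if p ∈ Q then (1 : ℝ) else -1)).prod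

/-- The primes `p` with `(log₂ N) ^ 2 < p ≤ N ^ (1 / 4)` (integer part of the logarithm). -/
def window (N : ℕ) : Finset ℕ :=
  (Icc 1 N).filter (fun p => p.Prime ∧ (Nat.log 2 N) ^ 2 < p ∧ p ^ 4 ≤ N)

/-- `Q` is a random set (only its primes matter), the events `p ∈ Q` are independent, and
`∑ min (P(p ∈ Q), P(p ∉ Q)) / p` over the window of `N` tends to infinity with `N`. -/
structure Admissible {Ω : Type*} [MeasurableSpace Ω] (μ : Measure Ω) (Q : Ω → Set ℕ) : Prop where
  meas : ∀ p, MeasurableSet {ω | p ∈ Q ω}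
  indep : iIndepSet (fun p => {ω | p ∈ Q ω}) μ
  mass : Tendsto (fun N => ∑ p ∈ window N,
    min (μ.real {ω | p ∈ Q ω}) (1 - μ.real {ω | p ∈ Q ω}) / p) atTop atTop

/-- **Chowla's conjecture for the randomly modified Liouville function.**
1. For arbitrary real weights bounded by `1`, almost surely all the correlations over nonempty finite
   sets `H` of shifts are `o(N)`; for `w = 1` and `H = {0, ..., k - 1}` this is Chowla's conjecture.
2. Almost surely all sign patterns over all finite sets `H` of shifts have the density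
   `2 ^ (-|H|)`.
3. A sufficient condition for `Q` to be admissible. -/
theorem result :
    (∀ (Ω : Type*) (_ : MeasurableSpace Ω) (μ : Measure Ω) (_ : IsProbabilityMeasure μ)
      (Q : Ω → Set ℕ), Admissible μ Q →
      (∀ w : ℕ → ℝ, (∀ n, |w n| ≤ 1) → ∀ᵐ ω ∂μ, ∀ H : Finset ℕ, H.Nonempty →
        Tendsto (fun N : ℕ => (∑ n ∈ Icc 1 N, w n * ∏ a ∈ H, lam (Q ω) (n + a)) / N)
          atTop (𝓝 0)) ∧
      (∀ᵐ ω ∂μ, ∀ (H : Finset ℕ) (s : ℕ → ℝ), (∀ a, s a = 1 ∨ s a = -1) →
        Tendsto (fun N : ℕ => (((Icc 1 N).filter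
          (fun n => ∀ a ∈ H, lam (Q ω) (n + a) = s a)).card : ℝ) / N) atTop
          (𝓝 ((1 / 2) ^ H.card)))) ∧
    (∀ (Ω : Type*) (_ : MeasurableSpace Ω) (μ : Measure Ω) (_ : IsProbabilityMeasure μ)
      (Q : Ω → Set ℕ), (∀ p, MeasurableSet {ω | p ∈ Q ω}) →
      iIndepSet (fun p => {ω | p ∈ Q ω}) μ →
      ∀ δ : ℕ → ℝ, Antitone δ → (∀ n, 0 ≤ δ n) →
      Tendsto (fun N : ℕ => δ N * Real.log (Real.log N)) atTop atTop →
      (∀ p : ℕ, p.Prime → δ p ≤ μ.real {ω | p ∈ Q ω} ∧ μ.real {ω | p ∈ Q ω} ≤ 1 - δ p) →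
      Admissible μ Q) := by
  refine ⟨?_, ?_⟩
  · intro Ω _ μ _ Q hQ
    exact ⟨fun w hw => Pool.Agent.H629Chowla.corr_ae Q hQ.meas hQ.indep hQ.mass w hw,
      Pool.Agent.H629Chowla.patterns_ae Q hQ.meas hQ.indep hQ.mass⟩
  · intro Ω _ μ _ Q hm hi δ hδ h0 hlim he
    refine ⟨hm, hi, ?_⟩
    exact Pool.Agent.H629Chowla.window_tendsto δ hδ h0 hlim
      (fun p => min (μ.real {ω | p ∈ Q ω}) (1 - μ.real {ω | p ∈ Q ω}))
      (fun p hp => le_min (he p hp).1 (by linarith [(he p hp).2]))

end Pool.Agent.Results.MP_a14ce1_nt.RandomSignChanges
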